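import Mathlib
import Pool.Agent.Lib.MP_f83138_lc.Mono.Defs
import Pool.Agent.Lib.MP_f83138_lc.Mono.Main

/-!
# Time-space trade-off for monotone programs for directed reachability

A monotone memory program has `w` registers which hold elements of an arbitrary linear order `α`.
Each step replaces the whole memory by an arbitrary function of the memory and of the digraph which
is monotone in both and which, for every content of the memory, reads at most `r` entries of the
adjacency matrix. The program accepts if at the end the output register is at least a threshold.
A randomized program is a probability distribution on such programs.

If for every digraph on `n ≥ 16` vertices the program decides with probability at least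
`1 / 2 + exp (- D / 16)` whether there is a directed path from `s` to `t ≠ s`, where
`D = log (n / max w r) ≥ 64 log log n`, then it makes `exp (D ^ 2 / (16 log (64 log n / D)))` steps.
(Consequence, `main_poly` in `Mono.Main`: if the success probability is at least `2 / 3` and there
are at most `n ^ c` steps, `c ≥ 1`, then `max w r ≥ n / exp (8 √(c log n log log n))`.)

Proof. Let the `q ^ h` layers of `m` vertices carry a random path (one vertex in every layer) and a
random cut (a subset of every layer). Claim: if a program of length `N` does not separate a family
of paths and a family of cuts which both have density `μ` on an interval of `e` layers, then

* (time) a program of length `K N` does not separate families of density `> K w μ`: cut the program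
  into `K` pieces; for a register and a moment the least value over the paths and the greatest value
  over the cuts show which of the families is thinned out;
* (space) on the interval of `q e` layers a program of length `N` does not separate families of
  density `μ'`, where `μ'` is tiny: for a random path and a random cut there is, except with small
  probability, a block of `e` layers such that after fixing the path and the cut before the block
  (the path inside of the cut) and behind the block (the path outside of the cut) both families
  are dense in the block.

The base case is that `r` entries of the matrix do not separate dense families in one layer.
-/

namespace Pool.Agent.Results.MP_f83138_lc.MonotoneSpace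

open Pool.Agent.Lib.MP_f83138_lc.Mono

theorem result {n w r T : ℕ} (hn : 16 ≤ n) {s t : Fin n} (hst : s ≠ t) {α : Type*}
    [LinearOrder α] {Ω : Type*} [Fintype Ω] (μ : Ω → ℝ) (P : Ω → MonoProgram n w r α)
    (hT : ∀ i, (P i).steps.length ≤ T) {D : ℝ} (hD : D = Real.log (n / (max w r : ℕ)))
    (h64 : 64 * Real.log (Real.log n) ≤ D)
    (hP : Solves μ P s t (1 / 2 + Real.exp (-D / 16))) :
    Real.exp (D ^ 2 / (16 * Real.log (64 * Real.log n / D))) ≤ T :=
  main hn hst hD h64 hP hT

end Pool.Agent.Results.MP_f83138_lc.MonotoneSpace
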